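import Mathlib
import Pool.Graph.R_pool_sql_team_seeded_efc1946e.K1H34.UHC.Main
import Pool.Agent.H21.UC.Stm

set_option autoImplicit false

/-!
# Project KC, part FIN: iteration of the phases
-/

namespace Pool.Agent.H85.UC

open Finset Classical Filter
open Pool.Agent.H21.UC
open Pool.Agent.K1H34.UNI (nb)
open Pool.Agent.K1H34

theorem mem_nb' {V : Type} [Fintype V] {Γ : SimpleGraph V} {v u : V} :
    u ∈ nb Γ v ↔ Γ.Adj v u := by
  simp [nb]

/-- the result of one phase, for all graphs with few common neighbours -/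
def MachD (V : Type) [Fintype V] (t s : ℕ) (D D' : ℝ) (K : ℕ) : Prop :=
  ∀ G : SimpleGraph V, UHC.Rare G t s → (∀ v, ((nb G v).card : ℝ) ≤ D) →
    ∃ U : Finset V, UHC.Col G U K ∧ ∀ v, ((nb G v \ U).card : ℝ) ≤ D'

theorem iterD {V : Type} [Fintype V] {t s : ℕ} {r : ℝ} (hr : 0 ≤ r) (J : ℕ) :
    ∀ (D : ℝ) (K : ℕ → ℕ),
    (∀ j < J, MachD V t s (D * r ^ j) (D * r ^ (j + 1)) (K j)) → 0 ≤ D →
    ∀ G : SimpleGraph V, UHC.Rare G t s → ∀ (U : Finset V),
      (∀ v ∈ U, ((UHC.N G U v).card : ℝ) ≤ D) →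
      UHC.Col G U (∑ j ∈ range J, K j + (⌊D * r ^ J⌋₊ + 1)) := by
  induction J with
  | zero =>
    intro D K _ hD G _ U hU
    rw [Finset.range_zero, Finset.sum_empty, zero_add, pow_zero, mul_one]
    exact UHC.col_greedy _ _ U rfl fun v hv => Nat.le_floor (hU v hv)
  | succ J ih =>
    intro D K hmach hD G hR U hU
    obtain ⟨U1, hcol, hdeg⟩ := hmach 0 (Nat.succ_pos _) (UHC.res G U) (UHC.res_rare hR U) (by
      intro u
      rw [pow_zero, mul_one]
      by_cases hu : u ∈ U
      · refine le_trans ?_ (hU u hu)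
        have h1 : nb (UHC.res G U) u ⊆ UHC.N G U u := by
          intro v hv
          rw [mem_nb'] at hv
          exact UHC.mem_N.2 ⟨hv.2.2, hv.1⟩
        exact_mod_cast Finset.card_le_card h1
      · have h1 : nb (UHC.res G U) u = ∅ := by
          rw [Finset.eq_empty_iff_forall_notMem]
          intro v hv
          rw [mem_nb'] at hv
          exact hu hv.2.1
        rw [h1]
        simpa using hD)
    rw [zero_add, pow_one] at hdeg
    have hcol' : UHC.Col G (U ∩ U1) (K 0) := by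
      obtain ⟨c, a, b⟩ := hcol
      refine ⟨c, fun v hv => a v (Finset.mem_inter.1 hv).2, fun u hu v hv huv =>
        b u (Finset.mem_inter.1 hu).2 v (Finset.mem_inter.1 hv).2
          ⟨huv, (Finset.mem_inter.1 hu).1, (Finset.mem_inter.1 hv).1⟩⟩
    have hdeg' : ∀ v ∈ U \ U1, ((UHC.N G (U \ U1) v).card : ℝ) ≤ D * r := by
      intro v hv
      refine le_trans ?_ (hdeg v)
      have h1 : UHC.N G (U \ U1) v ⊆ nb (UHC.res G U) v \ U1 := by
        intro u hu
        rw [UHC.mem_N, Finset.mem_sdiff] at hu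
        rw [Finset.mem_sdiff, mem_nb']
        exact ⟨⟨hu.2, (Finset.mem_sdiff.1 hv).1, hu.1.1⟩, hu.1.2⟩
      exact_mod_cast Finset.card_le_card h1
    have hcol2 := ih (D * r) (fun j => K (j + 1)) (by
      intro j hj
      have := hmach (j + 1) (by omega)
      have e1 : D * r * r ^ j = D * r ^ (j + 1) := by rw [pow_succ]; ring
      have e2 : D * r * r ^ (j + 1) = D * r ^ (j + 1 + 1) := by rw [pow_succ r (j + 1)]; ring
      rw [e1, e2]
      exact this) (by positivity) G hR (U \ U1) hdeg'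
    have h1 := hcol'.union hcol2
    refine h1.mono ?_ ?_
    · intro v hv
      rw [Finset.mem_union, Finset.mem_inter, Finset.mem_sdiff]
      tauto
    · have e3 : D * r * r ^ J = D * r ^ (J + 1) := by rw [pow_succ]; ring
      rw [Finset.sum_range_succ' K J, e3]
      omega

theorem geom_le {r : ℝ} (h0 : 0 ≤ r) (h1 : r < 1) (J : ℕ) :
    ∑ j ∈ range J, r ^ j ≤ 1 / (1 - r) := by
  have h := geom_sum_eq h1.ne J
  rw [h, ← neg_div_neg_eq]
  have h2 : 0 ≤ r ^ J := by positivity
  refine div_le_div₀ zero_le_one (by linarith) (by linarith) (by linarith)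

/-- `a log y ≤ ε y` eventually -/
theorem ev_log (a : ℝ) {ε : ℝ} (hε : 0 < ε) : ∀ᶠ y : ℝ in atTop, a * Real.log y ≤ ε * y := by
  have h := (Real.isLittleO_log_id_atTop.const_mul_left a).bound hε
  filter_upwards [h, eventually_ge_atTop (0 : ℝ)] with y hy hy0
  simp only [id, Real.norm_eq_abs] at hy
  rw [abs_of_nonneg hy0] at hy
  exact (le_abs_self _).trans hy

/-- `a y ≤ ε exp y` eventually -/
theorem ev_exp (a : ℝ) {ε : ℝ} (hε : 0 < ε) : ∀ᶠ y : ℝ in atTop, a * y ≤ ε * Real.exp y := by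
  have h := Real.tendsto_pow_mul_exp_neg_atTop_nhds_zero 1
  have h2 := h.const_mul a
  rw [mul_zero] at h2
  filter_upwards [h2.eventually (ge_mem_nhds hε)] with y hy
  rw [pow_one, Real.exp_neg] at hy
  have h3 : 0 < Real.exp y := Real.exp_pos y
  have h4 := mul_le_mul_of_nonneg_right hy h3.le
  have h5 : a * (y * (Real.exp y)⁻¹) * Real.exp y = a * y := by
    field_simp
  rw [h5] at h4
  exact h4

theorem t_FIN : S_PHASE → S_ALL := by
  intro hP t s ht ε hε
  -- ε' with (1+ε')/(1-ε') ≤ 1 + ε/2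
  obtain ⟨e, he0, he1, he⟩ : ∃ e : ℝ, 0 < e ∧ e < 1 ∧ (1 + e) / (1 - e) ≤ 1 + ε / 2 := by
    refine ⟨min (1 / 2) (ε / 8), by positivity, ?_, ?_⟩
    · exact lt_of_le_of_lt (min_le_left _ _) (by norm_num)
    · have h1 : min (1 / 2) (ε / 8) ≤ 1 / 2 := min_le_left _ _
      have h2 : min (1 / 2) (ε / 8) ≤ ε / 8 := min_le_right _ _
      have h3 : 0 < min (1 / 2) (ε / 8) := by positivity
      set m := min (1 / 2) (ε / 8)
      rw [div_le_iff₀ (by linarith)]
      nlinarith
  obtain ⟨δ, hδ0, hδ1, y0, hy01, hy0⟩ := hP t s ht e he0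
  set r : ℝ := 1 - δ with hr
  have hr0 : 0 < r := by rw [hr]; linarith
  have hr1 : r < 1 := by rw [hr]; linarith
  have hlr : Real.log r < 0 := Real.log_neg hr0 hr1
  have ev1 := ev_log 2 he0
  have ev2 := ev_exp 1 (show 0 < ε / 4 by positivity)
  obtain ⟨y1, hy1⟩ := Filter.eventually_atTop.1 (ev1.and (ev2.and
    ((eventually_ge_atTop (y0 / (1 - e))).and ((eventually_ge_atTop (4 / ε)).and
      (eventually_ge_atTop (1 : ℝ))))))
  refine ⟨y1, fun y hy V _ G hR hdeg => ?_⟩
  obtain ⟨a1, a2, a3, a4, a5⟩ := hy1 y hy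
  have yp : 0 < y := by linarith
  have hlog : 0 ≤ Real.log y := Real.log_nonneg a5
  set D := Real.exp y with hD
  have hDp : 0 < D := Real.exp_pos _
  -- number of phases
  set J : ℕ := ⌈2 * Real.log y / (-Real.log r)⌉₊ with hJ
  have hJ1 : r ^ J ≤ 1 / y ^ 2 := by
    have h1 : 2 * Real.log y / (-Real.log r) ≤ J := Nat.le_ceil _
    rw [div_le_iff₀ (by linarith)] at h1
    have h2 : J * Real.log r ≤ -(2 * Real.log y) := by linarith
    have h3 : r ^ J = Real.exp (J * Real.log r) := by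
      rw [Real.exp_nat_mul, Real.exp_log hr0]
    have h4 : (1 : ℝ) / y ^ 2 = Real.exp (-(2 * Real.log y)) := by
      rw [Real.exp_neg, two_mul, Real.exp_add, Real.exp_log yp, one_div, sq]
    rw [h3, h4, Real.exp_le_exp]
    exact h2
  set yj : ℕ → ℝ := fun j => y + j * Real.log r with hyj
  have hexp : ∀ j, Real.exp (yj j) = D * r ^ j := by
    intro j
    simp only [hyj]
    rw [Real.exp_add, Real.exp_nat_mul, Real.exp_log hr0]
  have hyj1 : ∀ j < J, (1 - e) * y ≤ yj j := by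
    intro j hj
    have h1 : (j : ℝ) < 2 * Real.log y / (-Real.log r) := Nat.lt_ceil.1 hj
    rw [lt_div_iff₀ (by linarith)] at h1
    simp only [hyj]
    linarith
  have hex : ∀ j, ∃ K : ℕ, j < J → ((K : ℝ) ≤ (1 + e) * δ * Real.exp (yj j) / yj j ∧
      MachD V t s (D * r ^ j) (D * r ^ (j + 1)) K) := by
    intro j
    by_cases hj : j < J
    · have h1 : y0 ≤ yj j := by
        refine le_trans ?_ (hyj1 j hj)
        have := (div_le_iff₀ (by linarith : (0 : ℝ) < 1 - e)).1 a3
        linarith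
      obtain ⟨K, b1, b2⟩ := hy0 (yj j) h1
      refine ⟨K, fun _ => ⟨b1, fun G' hR' hd' => ?_⟩⟩
      obtain ⟨U, c1, c2⟩ := b2 V G' hR' (by rw [hexp j]; exact hd')
      refine ⟨U, c1, fun v => (c2 v).trans (le_of_eq ?_)⟩
      rw [hexp j, pow_succ]
      ring
    · exact ⟨0, fun h => absurd h hj⟩
  choose K hK using hex
  have hcol := iterD (V := V) (t := t) (s := s) hr0.le J D K (fun j hj => (hK j hj).2) hDp.le G hR
    univ (fun v _ => hdeg v)
  refine ⟨_, ?_, hcol⟩
  push_cast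
  have k1 : ∀ j ∈ range J, (K j : ℝ) ≤ (1 + e) / (1 - e) * δ * D / y * r ^ j := by
    intro j hj
    rw [Finset.mem_range] at hj
    have h3 := hyj1 j hj
    have h1e : 0 < 1 - e := by linarith
    have h4 : 0 < (1 - e) * y := by positivity
    refine (hK j hj).1.trans ?_
    rw [hexp]
    calc (1 + e) * δ * (D * r ^ j) / yj j ≤ (1 + e) * δ * (D * r ^ j) / ((1 - e) * y) :=
          div_le_div_of_nonneg_left (by positivity) h4 h3
      _ = _ := by field_simp
  have k2 : ∑ j ∈ range J, (K j : ℝ) ≤ (1 + ε / 2) * (D / y) := by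
    refine (Finset.sum_le_sum k1).trans ?_
    rw [← Finset.mul_sum]
    have h1 := geom_le hr0.le hr1 J
    have h2 : 1 - r = δ := by rw [hr]; ring
    rw [h2] at h1
    have h1e : 0 < 1 - e := by linarith
    calc (1 + e) / (1 - e) * δ * D / y * ∑ j ∈ range J, r ^ j
        ≤ (1 + e) / (1 - e) * δ * D / y * (1 / δ) :=
          mul_le_mul_of_nonneg_left h1 (by positivity)
      _ = (1 + e) / (1 - e) * (D / y) := by field_simp
      _ ≤ (1 + ε / 2) * (D / y) := mul_le_mul_of_nonneg_right he (by positivity)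
  have k3 : ((⌊D * r ^ J⌋₊ : ℕ) : ℝ) ≤ ε / 4 * (D / y) := by
    refine (Nat.floor_le (by positivity)).trans ?_
    refine (mul_le_mul_of_nonneg_left hJ1 hDp.le).trans ?_
    have h1 : D * (1 / y ^ 2) = 1 / y * (D / y) := by field_simp
    rw [h1]
    refine mul_le_mul_of_nonneg_right ?_ (by positivity)
    rw [div_le_iff₀ hε] at a4
    rw [div_le_iff₀ yp]
    linarith
  have k4 : 1 ≤ ε / 4 * (D / y) := by
    have h1 : ε / 4 * (D / y) = ε / 4 * D / y := by ring
    rw [h1, le_div_iff₀ yp]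
    exact a2
  have k5 : (1 + ε / 2) * (D / y) + (ε / 4 * (D / y) + ε / 4 * (D / y)) = (1 + ε) * D / y := by
    ring
  linarith

end Pool.Agent.H85.UC
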